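import Pool.Agent.Y922.AP.Stm3
import Pool.Agent.Y688.AP.Log

/-!
# Project AQ, (CHILOG): the logarithm of the completed Dirichlet L-functions (helper497)
-/

set_option autoImplicit false

open Filter Topology Set Complex

namespace Pool.Agent.Y497.AQ

open Pool.Agent.Y688.AP (psi_big ld_mul)

/-- the logarithmic derivative of a Dirichlet L-function is bounded on the half-plane -/
theorem chi_bd {d : ℕ} [NeZero d] (ψ : DirichletCharacter ℂ d) : ∃ C : ℝ, 0 ≤ C ∧ ∀ s : ℂ,
    2 ≤ s.re → ‖deriv ψ.LFunction s / ψ.LFunction s‖ ≤ C := by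
  obtain ⟨f, hf⟩ : ∃ f : ℕ → ℂ, f = (fun n : ℕ => ψ n) *
    (fun n => ((ArithmeticFunction.vonMangoldt n : ℝ) : ℂ)) := ⟨_, rfl⟩
  refine ⟨∑' n, ‖LSeries.term f 2 n‖, tsum_nonneg fun _ => norm_nonneg _, fun s hs => ?_⟩
  have hs1 : 1 < s.re := by linarith
  have h1 : LSeries f s = -deriv (LSeries (fun n : ℕ => ψ n)) s / LSeries (fun n : ℕ => ψ n) s := by
    rw [hf]
    exact DirichletCharacter.LSeries_twist_vonMangoldt_eq ψ hs1
  have h2 : LSeriesSummable f 2 := by
    rw [hf]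
    exact DirichletCharacter.LSeriesSummable_twist_vonMangoldt ψ (by norm_num)
  have h3 : LSeriesSummable f s := by
    rw [hf]
    exact DirichletCharacter.LSeriesSummable_twist_vonMangoldt ψ hs1
  have e : ‖deriv ψ.LFunction s / ψ.LFunction s‖ = ‖LSeries f s‖ := by
    rw [h1, neg_div, norm_neg, DirichletCharacter.deriv_LFunction_eq_deriv_LSeries ψ hs1,
      DirichletCharacter.LFunction_eq_LSeries ψ hs1]
  rw [e]
  unfold LSeries
  refine (norm_tsum_le_tsum_norm h3.norm).trans ?_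
  refine Summable.tsum_le_tsum (fun n => ?_) h3.norm h2.norm
  exact LSeries.norm_term_le_of_re_le_re _ (by simpa using hs) n

/-- the gamma factor -/
theorem gf_eq {d : ℕ} (ψ : DirichletCharacter ℂ d) : ∃ a : ℝ, 0 ≤ a ∧
    ∀ s : ℂ, ψ.gammaFactor s = Gammaℝ (s + a) := by
  rcases ψ.even_or_odd with h | h
  · exact ⟨0, le_rfl, fun s => by rw [h.gammaFactor_def, ofReal_zero, add_zero]⟩
  · exact ⟨1, zero_le_one, fun s => by rw [h.gammaFactor_def, ofReal_one]⟩

theorem F_eq {d : ℕ} [NeZero d] {ψ : DirichletCharacter ℂ d} {a : ℝ} (ha : 0 ≤ a)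
    (hg : ∀ s : ℂ, ψ.gammaFactor s = Gammaℝ (s + a)) {s : ℂ} (hs : 1 < s.re) :
    (d : ℂ) ^ (s / 2) * ψ.completedLFunction s = (d : ℂ) ^ (s / 2) *
      ((Real.pi : ℂ) ^ (-(s + a) / 2) * Gamma ((s + a) / 2) * ψ.LFunction s) := by
  have h0 : s ≠ 0 := by rintro rfl; simp at hs; linarith
  have hre : 0 < (s + a).re := by rw [add_re, ofReal_re]; linarith
  have hG : Gammaℝ (s + a) ≠ 0 := Gammaℝ_ne_zero_of_re_pos hre
  rw [DirichletCharacter.LFunction_eq_completed_div_gammaFactor ψ s (Or.inl h0), hg, ← Gammaℝ_def]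
  field_simp

theorem t_CHILOG : Pool.Agent.Y922.AQ.S_CHILOG := by
  intro d _ ψ hd hψ
  have hψ1 : ψ ≠ 1 := by
    rintro rfl
    rw [DirichletCharacter.isPrimitive_def, DirichletCharacter.conductor_one] at hψ
    exact hd hψ.symm
  have hd0 : (d : ℂ) ≠ 0 := by exact_mod_cast NeZero.ne d
  obtain ⟨a, ha, hg⟩ := gf_eq ψ
  obtain ⟨C, hC0, hC⟩ := chi_bd ψ
  obtain ⟨σ, hσ1, hσ⟩ := psi_big (2 * (1 + |Real.log Real.pi| / 2 + C))
  obtain ⟨F, hF⟩ : ∃ F : ℂ → ℂ, F = fun s => (d : ℂ) ^ (s / 2) * ψ.completedLFunction s :=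
    ⟨_, rfl⟩
  have hU : Convex ℝ {s : ℂ | 2 * σ < s.re} := convex_halfSpace_re_gt _
  have hUo : IsOpen {s : ℂ | 2 * σ < s.re} := isOpen_lt continuous_const continuous_re
  have hxd : Differentiable ℂ F := by
    rw [hF]
    exact ((differentiable_id.div_const 2).const_cpow (Or.inl hd0)).mul
      (DirichletCharacter.differentiable_completedLFunction hψ1)
  have hFe : ∀ {s : ℂ}, 1 < s.re → F s = (d : ℂ) ^ (s / 2) *
      ((Real.pi : ℂ) ^ (-(s + a) / 2) * Gamma ((s + a) / 2) * ψ.LFunction s) := by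
    intro s hs
    rw [hF]
    exact F_eq ha hg hs
  have hre2 : ∀ s : ℂ, ((s + a) / 2).re = (s.re + a) / 2 := fun s => by simp
  have hne : ∀ s ∈ {s : ℂ | 2 * σ < s.re}, F s ≠ 0 := by
    intro s hs
    have hs' : 2 * σ < s.re := hs
    have hs1 : 1 < s.re := by linarith
    rw [hFe hs1]
    have hpi : (Real.pi : ℂ) ^ (-(s + a) / 2) ≠ 0 := by
      rw [Ne, cpow_eq_zero_iff]
      rintro ⟨h, _⟩
      exact Real.pi_ne_zero (by exact_mod_cast h)
    have hdp : (d : ℂ) ^ (s / 2) ≠ 0 := by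
      rw [Ne, cpow_eq_zero_iff]
      rintro ⟨h, _⟩
      exact hd0 h
    have hG : Gamma ((s + a) / 2) ≠ 0 := by
      apply Gamma_ne_zero_of_re_pos
      rw [hre2]
      linarith
    have hz : ψ.LFunction s ≠ 0 :=
      DirichletCharacter.LFunction_ne_zero_of_one_le_re ψ (Or.inl hψ1) hs1.le
    exact mul_ne_zero hdp (mul_ne_zero (mul_ne_zero hpi hG) hz)
  obtain ⟨L, hLd, hL⟩ := Helper242.RK.exists_log hU hUo ⟨((2 * σ + 1 : ℝ) : ℂ), by
    show 2 * σ < (((2 * σ + 1 : ℝ) : ℂ)).re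
    rw [ofReal_re]; linarith⟩ hxd.differentiableOn hne
  refine ⟨2 * σ, L, by linarith, fun s hs => ?_⟩
  have hsU : s ∈ {s : ℂ | 2 * σ < s.re} := hs
  have hnhds : {s : ℂ | 2 * σ < s.re} ∈ 𝓝 s := hUo.mem_nhds hsU
  have hLa : AnalyticAt ℂ L s := hLd.analyticAt hnhds
  refine ⟨hLa, by rw [hL s hsU, hF], ?_⟩
  have hs2 : 2 ≤ s.re := by linarith
  have hs1 : 1 < s.re := by linarith
  have hpi0 : (Real.pi : ℂ) ≠ 0 := by exact_mod_cast Real.pi_ne_zero
  have hG : Gamma ((s + a) / 2) ≠ 0 := by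
    apply Gamma_ne_zero_of_re_pos
    rw [hre2]
    linarith
  have hz : ψ.LFunction s ≠ 0 :=
    DirichletCharacter.LFunction_ne_zero_of_one_le_re ψ (Or.inl hψ1) hs1.le
  -- the factors
  have d1 : HasDerivAt (fun z : ℂ => (d : ℂ) ^ (z / 2))
      ((d : ℂ) ^ (s / 2) * (Complex.log d / 2)) s := by
    have h := ((hasDerivAt_id s).div_const 2).const_cpow (c := (d : ℂ)) (Or.inl hd0)
    refine h.congr_deriv ?_
    show (d : ℂ) ^ (s / 2) * Complex.log d * (1 / 2) = _
    ring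
  have d3 : HasDerivAt (fun z : ℂ => (Real.pi : ℂ) ^ (-(z + a) / 2))
      ((Real.pi : ℂ) ^ (-(s + a) / 2) * (-(Complex.log Real.pi) / 2)) s := by
    have h := ((((hasDerivAt_id s).add_const (a : ℂ)).neg.div_const 2).const_cpow
      (c := (Real.pi : ℂ)) (Or.inl hpi0))
    refine h.congr_deriv ?_
    show (Real.pi : ℂ) ^ (-(s + a) / 2) * Complex.log Real.pi * (-1 / 2) = _
    ring
  have d4 : HasDerivAt (fun z : ℂ => Gamma ((z + a) / 2))
      (Gamma ((s + a) / 2) * (logDeriv Gamma ((s + a) / 2) / 2)) s := by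
    have hGd : DifferentiableAt ℂ Gamma ((s + a) / 2) := by
      apply differentiableAt_Gamma
      intro m h
      have h2 := congrArg re h
      rw [hre2, neg_re, natCast_re] at h2
      have : (0 : ℝ) ≤ m := Nat.cast_nonneg m
      linarith
    have h := HasDerivAt.comp s hGd.hasDerivAt (((hasDerivAt_id s).add_const (a : ℂ)).div_const 2)
    refine h.congr_deriv ?_
    rw [logDeriv_apply]
    field_simp
  have d5 : HasDerivAt ψ.LFunction (ψ.LFunction s * (deriv ψ.LFunction s / ψ.LFunction s)) s := by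
    refine (DirichletCharacter.differentiableAt_LFunction ψ s (Or.inr hψ1)).hasDerivAt.congr_deriv ?_
    field_simp
  have d7 := ld_mul d1 (ld_mul (ld_mul d3 d4) d5)
  have hev : F =ᶠ[𝓝 s] fun z => (d : ℂ) ^ (z / 2) *
      ((Real.pi : ℂ) ^ (-(z + a) / 2) * Gamma ((z + a) / 2) * ψ.LFunction z) := by
    filter_upwards [hnhds] with z hz
    have hz' : 2 * σ < z.re := hz
    exact hFe (by linarith)
  have d8 := d7.congr_of_eventuallyEq hev
  have hev2 : (fun z => cexp (L z)) =ᶠ[𝓝 s] F := by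
    filter_upwards [hnhds] with z hz
    exact hL z hz
  have d9 : HasDerivAt (fun z => cexp (L z)) (cexp (L s) * deriv L s) s :=
    hLa.differentiableAt.hasDerivAt.cexp
  have d10 := d8.congr_of_eventuallyEq hev2
  have key := d9.unique d10
  have hxs := hne s hsU
  rw [hL s hsU] at key
  have key2 : deriv L s = Complex.log d / 2 + (-(Complex.log Real.pi) / 2 +
      logDeriv Gamma ((s + a) / 2) / 2 + deriv ψ.LFunction s / ψ.LFunction s) := by
    have : F s * deriv L s = F s * (Complex.log d / 2 + (-(Complex.log Real.pi) / 2 +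
        logDeriv Gamma ((s + a) / 2) / 2 + deriv ψ.LFunction s / ψ.LFunction s)) := by
      rw [key, hFe hs1]
    exact mul_left_cancel₀ hxs this
  rw [key2]
  have hσs : σ < ((s + a) / 2).re := by rw [hre2]; linarith
  have r1 := hσ ((s + a) / 2) hσs
  have r2 := hC s hs2
  have r3 : 0 ≤ (Complex.log d / 2).re := by
    have h1 : (Complex.log d / 2) = ((Real.log d / 2 : ℝ) : ℂ) := by
      rw [← Complex.ofReal_natCast, ← ofReal_log (Nat.cast_nonneg d)]
      push_cast
      rfl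
    rw [h1, ofReal_re]
    have h2 : (1 : ℝ) ≤ d := by exact_mod_cast NeZero.one_le
    have := Real.log_nonneg h2
    linarith
  have r5 : (-(Complex.log Real.pi) / 2).re = -(Real.log Real.pi) / 2 := by
    rw [← ofReal_log Real.pi_pos.le]
    rw [show (-((Real.log Real.pi : ℝ) : ℂ) / 2) = ((-(Real.log Real.pi) / 2 : ℝ) : ℂ) by push_cast; rfl,
      ofReal_re]
  have r6 : (logDeriv Gamma ((s + a) / 2) / 2).re = (logDeriv Gamma ((s + a) / 2)).re / 2 := by simp
  have r7 : -C ≤ (deriv ψ.LFunction s / ψ.LFunction s).re :=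
    (abs_le.1 ((abs_re_le_norm _).trans r2)).1
  have r8 := le_abs_self (Real.log Real.pi)
  rw [add_re, add_re, add_re, r5, r6]
  linarith

end Pool.Agent.Y497.AQ
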